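import Mathlib

/-!
# Project OP (MP_b2a904_nt): parity bias of the missing integers of overpartitions

Interface file: definitions and the statements of the pieces.
-/

namespace K1H72.OP

open Polynomial

/-- An overpartition of `n`: a partition of `n` together with the set of those part sizes whose
first occurrence is overlined (a set of sizes occurring in the partition). -/
abbrev Overpartition (n : ℕ) : Type :=
  Σ p : n.Partition, {S : Finset ℕ // S ∈ p.parts.toFinset.powerset}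

/-- The number of missing integers: positive integers strictly smaller than the largest part which
do not occur as a part. -/
def missing {n : ℕ} (p : n.Partition) : ℕ :=
  ((Finset.Ico 1 p.parts.sup).filter (fun m => m ∉ p.parts)).card

/-- Number of overpartitions of `n` with an even number of missing integers. -/
def Me (n : ℕ) : ℕ :=
  (Finset.univ.filter (fun π : Overpartition n => Even (missing π.1))).card

/-- Number of overpartitions of `n` with an odd number of missing integers. -/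
def Mo (n : ℕ) : ℕ :=
  (Finset.univ.filter (fun π : Overpartition n => Odd (missing π.1))).card

/-- The difference. -/
def a (n : ℕ) : ℤ := (Me n : ℤ) - (Mo n : ℤ)

/-- Truncated product, `∏_{j ≤ N} (1 + 3 X^j) ∏_{j ≤ N} (1 - X^(2j-1))`. -/
noncomputable def Pol (N : ℕ) : ℤ[X] :=
  (∏ j ∈ Finset.range N, (1 + 3 * X ^ (j + 1))) * ∏ j ∈ Finset.range N, (1 - X ^ (2 * j + 1))

/-- `1/(1 - X^(i+1))` as a power series. -/
def E (i : ℕ) : PowerSeries ℤ := PowerSeries.mk (fun k => if (i + 1) ∣ k then 1 else 0)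

/-- `T 0 = 1`, `T (m+1) = ∏_{i<m} (1 - 3 X^(i+1))/(1 - X^(i+1)) · (-2 X^(m+1))/(1 - X^(m+1))`. -/
noncomputable def T : ℕ → PowerSeries ℤ
  | 0 => 1
  | (m + 1) => (∏ i ∈ Finset.range m, ((1 - 3 * PowerSeries.X ^ (i + 1)) * E i)) *
      (-2 * PowerSeries.X ^ (m + 1) * E m)

/-- OP-1 (combinatorial): classify by the largest part `m`; `missing = m - (number of sizes)`. -/
def S_GF1 : Prop := ∀ n N : ℕ, n ≤ N →
  a n = ∑ m ∈ Finset.range (N + 1), (-1) ^ m * PowerSeries.coeff n (T m)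

/-- OP-2 (algebraic, truncated q-binomial theorem and Euler's identity). -/
def S_GF2 : Prop := ∀ n N : ℕ, n ≤ N →
  ∑ m ∈ Finset.range (N + 1), (-1) ^ m * PowerSeries.coeff n (T m) = (Pol N).coeff n

def S_GF : Prop := ∀ n N : ℕ, n ≤ N → a n = (Pol N).coeff n

/-- OP-3a: bound for the coefficients of the truncated product. -/
def S_BD : Prop := ∀ (n N : ℕ) (r : ℝ), 0 < r → r < 1 →
  |((Pol N).coeff n : ℝ)| * r ^ n ≤ Real.exp (4 * r / (1 - r))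

/-- The infinite product `∏ (1+3q^j) ∏ (1-q^(2j-1))`. -/
noncomputable def F (q : ℂ) : ℂ :=
  (∏' j : ℕ, (1 + 3 * q ^ (j + 1))) * ∏' j : ℕ, (1 - q ^ (2 * j + 1))

/-- OP-3b (consequence of S_GF and S_BD). -/
def S_AN : Prop := ∀ q : ℂ, ‖q‖ < 1 →
  (Summable fun n : ℕ => ‖(a n : ℂ) * q ^ n‖) ∧ HasSum (fun n : ℕ => (a n : ℂ) * q ^ n) (F q)

/-- `τ = t - iθ`. -/
noncomputable def tau (t θ : ℝ) : ℂ := (t : ℂ) - (θ : ℂ) * Complex.I

/-- `q = e^{-τ} = e^{-t + iθ}`. -/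
noncomputable def qq (t θ : ℝ) : ℂ := Complex.exp (-tau t θ)

/-- OP-4: coefficient formula (consequence of S_AN). -/
def S_CO : Prop := ∀ (t : ℝ), 0 < t → ∀ n : ℕ,
  ∫ θ in (-Real.pi)..Real.pi, F (qq t θ) * Complex.exp ((n : ℂ) * tau t θ) =
    2 * Real.pi * (a n : ℂ)

/-- OP-5: the finite check (given S_GF and S_BD). -/
def S_FIN : Prop := ∀ n : ℕ, 27 < n → n ≤ 12500 → 0 < a n

/-- The theta series. -/
noncomputable def Th (q : ℂ) : ℂ := ∑' n : ℤ, (3 : ℂ) ^ n * q ^ (n * (n + 1) / 2)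

/-- `D q = (q²;q²)_∞`. -/
noncomputable def D (q : ℂ) : ℂ := ∏' j : ℕ, (1 - q ^ (2 * (j + 1)))

/-- `R0 q = ∏_{j ≥ 0} (1 + q^j/3)`. -/
noncomputable def R0 (q : ℂ) : ℂ := ∏' j : ℕ, (1 + q ^ j / 3)

/-- OP-6: Jacobi triple product at `z = 3`. -/
def S_JTP : Prop := ∀ q : ℂ, q ≠ 0 → ‖q‖ < 1 →
  Th q = (∏' j : ℕ, (1 - q ^ (j + 1))) * (∏' j : ℕ, (1 + 3 * q ^ (j + 1))) * R0 q

/-- OP-7: factorisation (from S_JTP). -/
def S_FAC : Prop := ∀ q : ℂ, q ≠ 0 → ‖q‖ < 1 → F q * D q * R0 q = Th q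

/-- OP-8: logarithm of an infinite product. -/
def S_LP : Prop := ∀ q w : ℂ, ‖q‖ < 1 → ‖w‖ ≤ 1 →
  (Summable fun m : ℕ => ‖w ^ (m + 1) / ((m : ℂ) + 1) * (q ^ (m + 1) / (1 - q ^ (m + 1)))‖) ∧
  ∏' j : ℕ, (1 - w * q ^ (j + 1)) =
    Complex.exp (-∑' m : ℕ, w ^ (m + 1) / ((m : ℂ) + 1) * (q ^ (m + 1) / (1 - q ^ (m + 1))))

/-- OP-9: lower bound for `R0` (from S_LP). -/
def S_R0L : Prop := ∀ t θ : ℝ, 0 < t →
  4 / 3 * Real.exp (-(1735 / 10000) - 286 / 10000 / t) ≤ ‖R0 (qq t θ)‖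

/-- `ell = -Li₂(-1/3) = 0.30903...`. -/
noncomputable def ell : ℝ := ∑' m : ℕ, (-1) ^ m * (1 / 3 : ℝ) ^ (m + 1) / ((m : ℝ) + 1) ^ 2

/-- OP-10: `R0` in the sector (from S_LP). -/
def S_R0S : Prop := ∀ t θ : ℝ, 0 < t → |θ| ≤ t →
  ∃ e : ℂ, ‖e‖ ≤ 9 / 4 * t ∧
    R0 (qq t θ) = ((2 / Real.sqrt 3 : ℝ) : ℂ) * Complex.exp ((ell : ℂ) / tau t θ + e)

/-- OP-11a: transformation of `D` (Mathlib: `ModularForm.eta_comp_eq_csqrt_I_inv`). -/
def S_MOD : Prop := ∀ τ : ℂ, 0 < τ.re →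
  D (Complex.exp (-τ)) = ((Real.pi : ℂ) / τ) ^ (1 / 2 : ℂ) *
    Complex.exp (τ / 12 - (Real.pi : ℂ) ^ 2 / (12 * τ)) *
    ∏' j : ℕ, (1 - Complex.exp (-2 * (Real.pi : ℂ) ^ 2 / τ) ^ (j + 1))

/-- OP-11b. -/
def S_EP : Prop := ∀ q : ℂ, ‖q‖ ≤ 1 / 1000 → ‖∏' j : ℕ, (1 - q ^ (j + 1)) - 1‖ ≤ 2 * ‖q‖

/-- OP-11c: lower bound for `D` near `q = 1` (from a, b). -/
def S_DN : Prop := ∀ t θ : ℝ, 0 < t → t ≤ 1 / 90 → |θ| ≤ 8 * t →
  99 / 100 * Real.sqrt (Real.pi / ‖tau t θ‖) *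
    Real.exp (-(Real.pi ^ 2 / 12 * (t / (t ^ 2 + θ ^ 2)))) ≤ ‖D (qq t θ)‖

/-- OP-12: lower bound for `D` away from `±1` (from S_LP). -/
def S_DF : Prop := ∀ t θ : ℝ, 0 < t → t ≤ 1 / 100 → 8 * t ≤ |θ| → |θ| ≤ Real.pi - 8 * t →
  Real.exp (-(345 / 1000 / t)) ≤ ‖D (qq t θ)‖

/-- OP-13a: the theta series by Poisson summation
(Mathlib: `Complex.tsum_exp_neg_quadratic`). -/
def S_TP : Prop := ∀ τ β : ℂ, 0 < τ.re →
  ∑' n : ℤ, Complex.exp (-τ * (n : ℂ) ^ 2 / 2 + β * n) =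
    (2 * (Real.pi : ℂ) / τ) ^ (1 / 2 : ℂ) *
      ∑' m : ℤ, Complex.exp ((β + 2 * (Real.pi : ℂ) * Complex.I * m) ^ 2 / (2 * τ))

/-- OP-13b: trivial bound for the theta series. -/
def S_TT : Prop := ∀ t θ : ℝ, 0 < t → t ≤ 1 / 90 →
  ‖Th (qq t θ)‖ ≤ 58 / 100 * Real.sqrt (2 * Real.pi / t) *
    Real.exp ((Real.log 3) ^ 2 / (2 * t))

/-- OP-13c: the theta series in the sector. -/
def S_TM : Prop := ∀ t θ : ℝ, 0 < t → t ≤ 1 / 90 → |θ| ≤ t →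
  ∃ e : ℂ, ‖e‖ ≤ 1 / 1000 ∧
    Th (qq t θ) = (2 * (Real.pi : ℂ) / tau t θ) ^ (1 / 2 : ℂ) * ((1 / Real.sqrt 3 : ℝ) : ℂ) *
      Complex.exp (tau t θ / 8 + (Real.log 3 : ℂ) ^ 2 / (2 * tau t θ)) * (1 + e)

/-- OP-14: the theta series near `q = -1`. -/
def S_TN : Prop := ∀ t u : ℝ, 0 < t → t ≤ 1 / 90 → |u| ≤ 1 →
  ‖Th (-qq t (t * u))‖ ≤ 83 / 100 * Real.sqrt (2 * Real.pi / t) *
    Real.exp (((Real.log 3) ^ 2 / 2 -
      (Real.pi / 2 - |u| * Real.log 3) ^ 2 / (2 * (1 + u ^ 2))) / t)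

/-- OP-15: the main integral. -/
def S_INT : Prop := ∀ lam : ℝ, 100 ≤ lam →
  88 / 100 * Real.sqrt (Real.pi / lam) ≤
      (∫ u in (-1 : ℝ)..1, Real.exp (-(lam * (u ^ 2 / (1 + u ^ 2)))) *
        Real.cos (lam * (u ^ 3 / (1 + u ^ 2)))) ∧
    (∫ u in (-1 : ℝ)..1, Real.exp (-(lam * (u ^ 2 / (1 + u ^ 2))))) ≤
      142 / 100 * Real.sqrt (Real.pi / lam)

/-- Goal of the project. -/
def S_GOAL : Prop := ∀ n : ℕ, 27 < n → Mo n < Me n

end K1H72.OP
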