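import Pool.Agent.K1H72.OP.Num

/-! Assembly. -/

namespace K1H72.OP

open Real MeasureTheory intervalIntegral

lemma neg_qq' (t θ : ℝ) : -qq t θ = qq t (θ - Real.pi) := by
  have h := neg_qq t (θ - Real.pi)
  rw [sub_add_cancel] at h
  rw [← h, neg_neg]

/-- integrand -/
noncomputable def G (n : ℕ) (t θ : ℝ) : ℂ := F (qq t θ) * Complex.exp ((n : ℂ) * tau t θ)

lemma norm_expn (n : ℕ) (t θ : ℝ) : ‖Complex.exp ((n : ℂ) * tau t θ)‖ = Real.exp (n * t) := by
  rw [Complex.norm_exp]
  congr 1
  simp [tau]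

lemma cont_G (hAN : S_AN) (n : ℕ) {t : ℝ} (ht : 0 < t) : Continuous (G n t) := by
  unfold G
  have h1 : Continuous fun θ : ℝ => tau t θ := by
    unfold tau
    fun_prop
  have h2 : Continuous fun θ : ℝ => qq t θ := by
    unfold qq
    fun_prop
  apply Continuous.mul
  · have e : (fun θ : ℝ => F (qq t θ)) = fun θ : ℝ => ∑' m : ℕ, (a m : ℂ) * (qq t θ) ^ m := by
      ext θ
      exact (hAN (qq t θ) (norm_qq_lt ht θ)).2.tsum_eq.symm
    rw [e]
    refine continuous_tsum (u := fun m : ℕ => ‖(a m : ℂ) * (qq t 0) ^ m‖) ?_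
      (hAN (qq t 0) (norm_qq_lt ht 0)).1 ?_
    · intro m
      fun_prop
    · intro m θ
      rw [norm_mul, norm_mul, norm_pow, norm_pow, norm_qq, norm_qq]
  · fun_prop

lemma side {G : ℝ → ℂ} (hG : Continuous G) {t A B : ℝ} (ht : 0 < t) (hB : 0 ≤ B)
    (h16 : 16 * t ≤ Real.pi)
    (h1 : ∀ θ, t ≤ θ → θ ≤ 8 * t → ‖G θ‖ ≤ A)
    (h2 : ∀ θ, 8 * t ≤ θ → θ ≤ Real.pi - 8 * t → ‖G θ‖ ≤ B)
    (h3 : ∀ θ, Real.pi - 8 * t ≤ θ → θ ≤ Real.pi → ‖G θ‖ ≤ A) :
    ‖∫ θ in t..Real.pi, G θ‖ ≤ 15 * t * A + Real.pi * B := by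
  have hi : ∀ x y : ℝ, IntervalIntegrable G volume x y := fun x y => hG.intervalIntegrable x y
  rw [← intervalIntegral.integral_add_adjacent_intervals (hi t (8 * t)) (hi (8 * t) Real.pi),
    ← intervalIntegral.integral_add_adjacent_intervals (hi (8 * t) (Real.pi - 8 * t))
      (hi (Real.pi - 8 * t) Real.pi)]
  have b1 : ‖∫ θ in t..(8 * t), G θ‖ ≤ A * |8 * t - t| := by
    apply intervalIntegral.norm_integral_le_of_norm_le_const
    intro θ hθ
    rw [Set.uIoc_of_le (by linarith)] at hθ
    exact h1 θ hθ.1.le hθ.2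
  have b2 : ‖∫ θ in (8 * t)..(Real.pi - 8 * t), G θ‖ ≤ B * |Real.pi - 8 * t - 8 * t| := by
    apply intervalIntegral.norm_integral_le_of_norm_le_const
    intro θ hθ
    rw [Set.uIoc_of_le (by linarith)] at hθ
    exact h2 θ hθ.1.le hθ.2
  have b3 : ‖∫ θ in (Real.pi - 8 * t)..Real.pi, G θ‖ ≤ A * |Real.pi - (Real.pi - 8 * t)| := by
    apply intervalIntegral.norm_integral_le_of_norm_le_const
    intro θ hθ
    rw [Set.uIoc_of_le (by linarith)] at hθ
    exact h3 θ hθ.1.le hθ.2
  rw [abs_of_nonneg (by linarith)] at b1 b2 b3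
  refine (norm_add_le _ _).trans ?_
  have := norm_add_le (∫ θ in (8 * t)..(Real.pi - 8 * t), G θ)
    (∫ θ in (Real.pi - 8 * t)..Real.pi, G θ)
  have : B * (Real.pi - 8 * t - 8 * t) ≤ B * Real.pi := by
    apply mul_le_mul_of_nonneg_left _ hB
    linarith
  nlinarith

theorem large (hAN : S_AN) (hCO : S_CO) (hFAC : S_FAC) (hR : S_R0L) (hR0S : S_R0S)
    (hMOD : S_MOD) (hEP : S_EP) (hDN : S_DN) (hDF : S_DF) (hTT : S_TT) (hTM : S_TM)
    (hTN : S_TN) (hINT : S_INT) (n : ℕ) (hn : 12500 < n) : 0 < a n := by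
  obtain ⟨hc1, hc2⟩ := cc_bounds
  have hpi := Real.pi_gt_d4
  have hn' : (12500 : ℝ) < n := by exact_mod_cast hn
  have hn0 : (0 : ℝ) < n := by linarith
  set t := Real.sqrt (cc / n) with htdef
  have hcn : 0 < cc / n := by positivity
  have ht : 0 < t := Real.sqrt_pos.mpr hcn
  have ht2 : t ^ 2 = cc / n := Real.sq_sqrt hcn.le
  have htle : t ≤ 1 / 105 := by
    apply Real.sqrt_le_iff.mpr
    constructor
    · norm_num
    · rw [div_le_iff₀ hn0]
      nlinarith
  have hnt2 : (n : ℝ) = cc / t ^ 2 := by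
    rw [ht2]; field_simp
  set lam := cc / t with hlam
  have hnt : (n : ℝ) * t = lam := by
    rw [hnt2, hlam]; field_simp
  have hlam100 : 100 ≤ lam := by
    rw [hlam, le_div_iff₀ ht]; linarith
  have hlam0 : 0 < lam := by linarith
  have hcont : Continuous (G n t) := cont_G hAN n ht
  have hi : ∀ x y : ℝ, IntervalIntegrable (G n t) volume x y :=
    fun x y => hcont.intervalIntegrable x y
  have h16 : 16 * t ≤ Real.pi := by linarith
  -- minor arcs
  set A := 211 / 100 * Real.exp (xB / t) * Real.exp lam with hA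
  set B := 518 / 1000 * Real.sqrt (2 * Real.pi / t) * Real.exp (xC / t) * Real.exp lam with hB
  have hGn : ∀ θ, ‖G n t θ‖ = ‖F (qq t θ)‖ * Real.exp lam := by
    intro θ
    rw [G, norm_mul, norm_expn, hnt]
  have m1 : ‖∫ θ in t..Real.pi, G n t θ‖ ≤ 15 * t * A + Real.pi * B := by
    apply side hcont ht (by positivity) h16
    · intro θ h1 h8
      rw [hGn, hA]
      apply mul_le_mul_of_nonneg_right _ (Real.exp_pos _).le
      exact minor_near hFAC hR hDN hTT ht (by linarith) (by rw [abs_of_nonneg] <;> linarith)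
        (by rw [abs_of_nonneg] <;> linarith)
    · intro θ h1 h8
      rw [hGn, hB]
      apply mul_le_mul_of_nonneg_right _ (Real.exp_pos _).le
      exact minor_far hFAC hR hDF hTT ht (by linarith) (by rw [abs_of_nonneg] <;> linarith)
        (by rw [abs_of_nonneg] <;> linarith)
    · intro θ h1 h8
      rw [hGn, hA]
      apply mul_le_mul_of_nonneg_right _ (Real.exp_pos _).le
      have e : qq t θ = -qq t (θ - Real.pi) := by
        rw [neg_qq, sub_add_cancel]
      rw [e]
      exact minor_neg hFAC hR hDN hTT hTN ht (by linarith) (by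
        rw [abs_of_nonpos] <;> linarith)
  have m2 : ‖∫ θ in (-Real.pi)..(-t), G n t θ‖ ≤ 15 * t * A + Real.pi * B := by
    have e : ∫ θ in (-Real.pi)..(-t), G n t θ = ∫ θ in t..Real.pi, G n t (-θ) := by
      rw [intervalIntegral.integral_comp_neg]
    rw [e]
    apply side (hcont.comp continuous_neg) ht (by positivity) h16
    · intro θ h1 h8
      rw [Function.comp_apply, hGn, hA]
      apply mul_le_mul_of_nonneg_right _ (Real.exp_pos _).le
      exact minor_near hFAC hR hDN hTT ht (by linarith)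
        (by rw [abs_neg, abs_of_nonneg] <;> linarith)
        (by rw [abs_neg, abs_of_nonneg] <;> linarith)
    · intro θ h1 h8
      rw [Function.comp_apply, hGn, hB]
      apply mul_le_mul_of_nonneg_right _ (Real.exp_pos _).le
      exact minor_far hFAC hR hDF hTT ht (by linarith)
        (by rw [abs_neg, abs_of_nonneg] <;> linarith)
        (by rw [abs_neg, abs_of_nonneg] <;> linarith)
    · intro θ h1 h8
      rw [Function.comp_apply, hGn, hA]
      apply mul_le_mul_of_nonneg_right _ (Real.exp_pos _).le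
      have e : qq t (-θ) = -qq t (-θ + Real.pi) := by
        rw [neg_qq', add_sub_cancel_right]
      rw [e]
      exact minor_neg hFAC hR hDN hTT hTN ht (by linarith) (by
        rw [abs_of_nonneg] <;> linarith)
  -- the total
  have htot := hCO t ht n
  have hsplit : ∫ θ in (-Real.pi)..Real.pi, G n t θ =
      (∫ θ in (-Real.pi)..(-t), G n t θ) + (∫ θ in (-t)..t, G n t θ) +
        ∫ θ in t..Real.pi, G n t θ := by
    rw [intervalIntegral.integral_add_adjacent_intervals (hi _ _) (hi _ _),
      intervalIntegral.integral_add_adjacent_intervals (hi _ _) (hi _ _)]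
  have htot' : (∫ θ in (-Real.pi)..(-t), G n t θ) + (∫ θ in (-t)..t, G n t θ) +
        (∫ θ in t..Real.pi, G n t θ) = 2 * Real.pi * (a n : ℂ) := by
    rw [← hsplit]
    exact htot
  -- main arc
  have hmainint : ∫ θ in (-t)..t, G n t θ = (t : ℂ) * ∫ u in (-1 : ℝ)..1, G n t (t * u) := by
    have := intervalIntegral.integral_comp_mul_left (a := -1) (b := 1) (G n t) ht.ne'
    rw [this]
    rw [mul_neg, mul_one, Complex.real_smul, ← mul_assoc, ← Complex.ofReal_mul,
      mul_inv_cancel₀ ht.ne']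
    simp
  set P : ℝ → ℝ := fun u => Real.exp (-(lam * (u ^ 2 / (1 + u ^ 2)))) with hP
  set Q : ℝ → ℝ := fun u => Real.exp (-(lam * (u ^ 2 / (1 + u ^ 2)))) *
        Real.cos (lam * (u ^ 3 / (1 + u ^ 2))) with hQ
  have hPc : Continuous P := by
    have h : ∀ u : ℝ, 1 + u ^ 2 ≠ 0 := fun u => by positivity
    rw [hP]
    fun_prop (disch := exact h _)
  have hQc : Continuous Q := by
    have h : ∀ u : ℝ, 1 + u ^ 2 ≠ 0 := fun u => by positivity
    rw [hQ]
    fun_prop (disch := exact h _)
  have hpt : ∀ u ∈ Set.Icc (-1 : ℝ) 1,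
      1 / Real.sqrt 2 * Real.exp (2 * lam) * (Q u - 3 / 100 * P u) ≤ (G n t (t * u)).re := by
    intro u hu
    have hu1 : |u| ≤ 1 := abs_le.mpr hu
    obtain ⟨δ, hδ, hF⟩ := major hFAC hR0S hMOD hEP hTM (θ := t * u) ht (by linarith)
      (by rw [abs_mul, abs_of_pos ht]; nlinarith [abs_nonneg u])
    have hu0 : (1 + u ^ 2) ≠ 0 := by positivity
    have htau : tau t (t * u) = (t : ℂ) * (1 - u * Complex.I) := by
      simp only [tau]; push_cast; ring
    have h1u : (1 - (u : ℂ) * Complex.I) ≠ 0 := by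
      intro h
      have := congrArg Complex.re h
      simp at this
    have hexp : (cc : ℂ) / tau t (t * u) + (n : ℂ) * tau t (t * u) =
        ((2 * lam - lam * (u ^ 2 / (1 + u ^ 2)) : ℝ) : ℂ) +
        ((-(lam * (u ^ 3 / (1 + u ^ 2))) : ℝ) : ℂ) * Complex.I := by
      have hnc : (n : ℂ) = ((cc / t ^ 2 : ℝ) : ℂ) := by
        rw [← hnt2]; simp
      have htc : (t : ℂ) ≠ 0 := by exact_mod_cast ht.ne'
      have huc : (1 + (u : ℂ) ^ 2) ≠ 0 := by exact_mod_cast hu0
      rw [hnc, htau, hlam]
      push_cast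
      field_simp
      ring_nf
      simp only [Complex.I_sq, show Complex.I ^ 3 = -Complex.I by
        rw [pow_succ, Complex.I_sq]; ring, Complex.I_pow_four]
      ring
    have hG : G n t (t * u) = ((1 / Real.sqrt 2 * Real.exp (2 * lam) : ℝ) : ℂ) *
        ((P u : ℝ) * (Complex.exp (((-(lam * (u ^ 3 / (1 + u ^ 2))) : ℝ) : ℂ) * Complex.I) *
          (1 + δ))) := by
      rw [G, hF]
      have : ((1 / Real.sqrt 2 : ℝ) : ℂ) * Complex.exp ((cc : ℂ) / tau t (t * u)) * (1 + δ) *
          Complex.exp ((n : ℂ) * tau t (t * u)) = ((1 / Real.sqrt 2 : ℝ) : ℂ) *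
          Complex.exp ((cc : ℂ) / tau t (t * u) + (n : ℂ) * tau t (t * u)) * (1 + δ) := by
        rw [Complex.exp_add]; ring
      rw [this, hexp, Complex.exp_add, ← Complex.ofReal_exp, hP]
      have e2 : Real.exp (2 * lam - lam * (u ^ 2 / (1 + u ^ 2))) =
          Real.exp (2 * lam) * Real.exp (-(lam * (u ^ 2 / (1 + u ^ 2)))) := by
        rw [← Real.exp_add]; congr 1
      rw [e2]
      push_cast
      ring
    have hzre : (Complex.exp (((-(lam * (u ^ 3 / (1 + u ^ 2))) : ℝ) : ℂ) * Complex.I)).re =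
        Real.cos (lam * (u ^ 3 / (1 + u ^ 2))) := by
      rw [Complex.exp_ofReal_mul_I_re, Real.cos_neg]
    have hzn : ‖Complex.exp (((-(lam * (u ^ 3 / (1 + u ^ 2))) : ℝ) : ℂ) * Complex.I)‖ = 1 :=
      Complex.norm_exp_ofReal_mul_I _
    set z := Complex.exp (((-(lam * (u ^ 3 / (1 + u ^ 2))) : ℝ) : ℂ) * Complex.I) with hz
    rw [hG, Complex.re_ofReal_mul, Complex.re_ofReal_mul]
    apply mul_le_mul_of_nonneg_left _ (by positivity)
    have hQP : Q u = P u * Real.cos (lam * (u ^ 3 / (1 + u ^ 2))) := rfl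
    have hP0 : 0 < P u := Real.exp_pos _
    rw [hQP]
    have hre : Real.cos (lam * (u ^ 3 / (1 + u ^ 2))) - 3 / 100 ≤ (z * (1 + δ)).re := by
      rw [mul_add, mul_one, Complex.add_re, hzre]
      have : -(3 / 100) ≤ (z * δ).re := by
        have h1 := Complex.abs_re_le_norm (z * δ)
        rw [norm_mul, hzn, one_mul] at h1
        have := (abs_le.mp h1).1
        linarith
      linarith
    nlinarith
  have hGc : Continuous fun u : ℝ => G n t (t * u) := hcont.comp (by fun_prop)
  have hre : ∀ f : ℝ → ℂ, Continuous f →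
      (∫ u in (-1 : ℝ)..1, f u).re = ∫ u in (-1 : ℝ)..1, (f u).re := by
    intro f hf
    have := Complex.reCLM.intervalIntegral_comp_comm (hf.intervalIntegrable (-1) 1)
      (μ := volume)
    exact this.symm
  have hlow : 1 / Real.sqrt 2 * Real.exp (2 * lam) *
      ((∫ u in (-1 : ℝ)..1, Q u) - 3 / 100 * ∫ u in (-1 : ℝ)..1, P u) ≤
      (∫ u in (-1 : ℝ)..1, G n t (t * u)).re := by
    rw [hre _ hGc]
    have e : 1 / Real.sqrt 2 * Real.exp (2 * lam) *
      ((∫ u in (-1 : ℝ)..1, Q u) - 3 / 100 * ∫ u in (-1 : ℝ)..1, P u) =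
      ∫ u in (-1 : ℝ)..1, 1 / Real.sqrt 2 * Real.exp (2 * lam) * (Q u - 3 / 100 * P u) := by
      have hPi : IntervalIntegrable (fun u => (3 / 100 : ℝ) * P u) volume (-1) 1 := by
        apply Continuous.intervalIntegrable
        fun_prop
      rw [intervalIntegral.integral_const_mul, intervalIntegral.integral_sub
        (hQc.intervalIntegrable _ _) hPi, intervalIntegral.integral_const_mul]
    rw [e]
    apply intervalIntegral.integral_mono_on (by norm_num)
    · apply Continuous.intervalIntegrable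
      fun_prop
    · apply Continuous.intervalIntegrable
      exact Complex.continuous_re.comp hGc
    · exact hpt
  obtain ⟨hI1, hI2⟩ := hINT lam hlam100
  have hI1' : 88 / 100 * Real.sqrt (Real.pi / lam) ≤ ∫ u in (-1 : ℝ)..1, Q u := hI1
  have hI2' : (∫ u in (-1 : ℝ)..1, P u) ≤ 142 / 100 * Real.sqrt (Real.pi / lam) := hI2
  set S := Real.sqrt (Real.pi / lam) with hS
  have hS0 : 0 < S := by rw [hS]; positivity
  have hmain : t * (1 / Real.sqrt 2 * Real.exp (2 * lam) * (837 / 1000 * S)) ≤
      (∫ θ in (-t)..t, G n t θ).re := by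
    rw [hmainint, Complex.re_ofReal_mul]
    apply mul_le_mul_of_nonneg_left _ ht.le
    refine le_trans ?_ hlow
    apply mul_le_mul_of_nonneg_left _ (by positivity)
    linarith
  -- comparison
  have hreal := congrArg Complex.re htot'
  rw [Complex.add_re, Complex.add_re] at hreal
  have hr : (2 * (Real.pi : ℂ) * (a n : ℂ)).re = 2 * Real.pi * (a n : ℝ) := by
    have : (2 * (Real.pi : ℂ) * (a n : ℂ)) = ((2 * Real.pi * (a n : ℝ) : ℝ) : ℂ) := by
      push_cast; ring
    rw [this, Complex.ofReal_re]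
  rw [hr] at hreal
  have r1 := (abs_le.mp ((Complex.abs_re_le_norm (∫ θ in t..Real.pi, G n t θ)).trans m1)).1
  have r2 := (abs_le.mp
    ((Complex.abs_re_le_norm (∫ θ in (-Real.pi)..(-t), G n t θ)).trans m2)).1
  have hcmp : 2 * (15 * t * A + Real.pi * B) <
      t * (1 / Real.sqrt 2 * Real.exp (2 * lam) * (837 / 1000 * S)) := by
    set x := 1 / t with hx
    have hx0 : 0 < x := by positivity
    have hx105 : 105 ≤ x := by
      rw [hx, le_div_iff₀ ht]; linarith
    have hnum := num_final hx105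
    have hsx0 : 0 < Real.sqrt x := Real.sqrt_pos.mpr hx0
    have hsx2 : Real.sqrt x * Real.sqrt x = x := Real.mul_self_sqrt hx0.le
    have htx : t = 1 / x := by rw [hx]; field_simp
    have hE1 : Real.exp (xB / t) * Real.exp lam ≤
        Real.exp (2 * lam) * Real.exp (-(735 / 10000 * x)) := by
      rw [← Real.exp_add, ← Real.exp_add]
      apply Real.exp_le_exp.mpr
      have : xB / t = xB * x := by rw [hx]; ring
      have : lam = cc * x := by rw [hlam, hx]; ring
      nlinarith [cc_xB]
    have hE2 : Real.exp (xC / t) * Real.exp lam ≤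
        Real.exp (2 * lam) * Real.exp (-(139 / 1000 * x)) := by
      rw [← Real.exp_add, ← Real.exp_add]
      apply Real.exp_le_exp.mpr
      have : xC / t = xC * x := by rw [hx]; ring
      have : lam = cc * x := by rw [hlam, hx]; ring
      nlinarith [cc_xC]
    have hSx : 117 / 100 / Real.sqrt x ≤ 1 / Real.sqrt 2 * S := by
      have : 1 / Real.sqrt 2 * S = Real.sqrt (Real.pi / (2 * cc) / x) := by
        rw [hS, one_div, ← Real.sqrt_inv, ← Real.sqrt_mul (by norm_num)]
        congr 1
        rw [hlam, hx]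
        field_simp
      rw [this, Real.sqrt_div (by positivity : 0 ≤ Real.pi / (2 * cc)) x]
      apply div_le_div_of_nonneg_right _ hsx0.le
      apply Real.le_sqrt_of_sq_le
      rw [le_div_iff₀ (by positivity)]
      nlinarith
    have hB1 : Real.sqrt (2 * Real.pi / t) ≤ 2507 / 1000 * Real.sqrt x := by
      have : 2 * Real.pi / t = 2 * Real.pi * x := by rw [hx]; ring
      rw [this, Real.sqrt_mul (by positivity)]
      gcongr
      apply Real.sqrt_le_iff.mpr
      constructor
      · norm_num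
      · have := Real.pi_lt_d4
        norm_num
        linarith
    have hA' : 2 * (15 * t * A) ≤ Real.exp (2 * lam) * t *
        (64 * Real.exp (-(735 / 10000 * x))) := by
      rw [hA]
      calc 2 * (15 * t * (211 / 100 * Real.exp (xB / t) * Real.exp lam))
          = t * (6330 / 100) * (Real.exp (xB / t) * Real.exp lam) := by ring
        _ ≤ t * (6330 / 100) * (Real.exp (2 * lam) * Real.exp (-(735 / 10000 * x))) := by
            gcongr
        _ ≤ t * 64 * (Real.exp (2 * lam) * Real.exp (-(735 / 10000 * x))) := by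
            gcongr
            norm_num
        _ = _ := by ring
    have hB' : 2 * (Real.pi * B) ≤ Real.exp (2 * lam) * t *
        (82 / 10 * x * Real.sqrt x * Real.exp (-(139 / 1000 * x))) := by
      rw [hB]
      calc 2 * (Real.pi * (518 / 1000 * Real.sqrt (2 * Real.pi / t) * Real.exp (xC / t) *
            Real.exp lam))
          = 2 * Real.pi * (518 / 1000) * Real.sqrt (2 * Real.pi / t) *
            (Real.exp (xC / t) * Real.exp lam) := by ring
        _ ≤ 2 * Real.pi * (518 / 1000) * (2507 / 1000 * Real.sqrt x) *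
            (Real.exp (2 * lam) * Real.exp (-(139 / 1000 * x))) := by
            gcongr
        _ ≤ 82 / 10 * Real.sqrt x *
            (Real.exp (2 * lam) * Real.exp (-(139 / 1000 * x))) := by
            have : 2 * Real.pi * (518 / 1000) * (2507 / 1000) ≤ 82 / 10 := by
              have := Real.pi_lt_d4
              norm_num
              linarith
            have e : 2 * Real.pi * (518 / 1000) * (2507 / 1000 * Real.sqrt x) =
              (2 * Real.pi * (518 / 1000) * (2507 / 1000)) * Real.sqrt x := by ring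
            rw [e]
            gcongr
        _ = _ := by
            have : t * x = 1 := by rw [hx]; field_simp
            calc _ = (t * x) * (82 / 10 * Real.sqrt x *
                (Real.exp (2 * lam) * Real.exp (-(139 / 1000 * x)))) := by rw [this, one_mul]
              _ = _ := by ring
    have hmn : 64 * Real.exp (-(735 / 10000 * x)) +
        82 / 10 * x * Real.sqrt x * Real.exp (-(139 / 1000 * x)) ≤ 3 / 4 / Real.sqrt x := by
      rw [le_div_iff₀ hsx0]
      calc _ = 64 * Real.sqrt x * Real.exp (-(735 / 10000 * x)) +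
          82 / 10 * x * (Real.sqrt x * Real.sqrt x) * Real.exp (-(139 / 1000 * x)) := by ring
        _ = 64 * Real.sqrt x * Real.exp (-(735 / 10000 * x)) +
          82 / 10 * x ^ 2 * Real.exp (-(139 / 1000 * x)) := by rw [hsx2]; ring
        _ ≤ 3 / 4 := hnum
    have hfin : 3 / 4 / Real.sqrt x < 837 / 1000 * (117 / 100 / Real.sqrt x) := by
      rw [← mul_div_assoc]
      apply div_lt_div_of_pos_right _ hsx0
      norm_num
    calc 2 * (15 * t * A + Real.pi * B) = 2 * (15 * t * A) + 2 * (Real.pi * B) := by ring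
      _ ≤ Real.exp (2 * lam) * t * (64 * Real.exp (-(735 / 10000 * x)) +
        82 / 10 * x * Real.sqrt x * Real.exp (-(139 / 1000 * x))) := by
          rw [mul_add]; exact add_le_add hA' hB'
      _ ≤ Real.exp (2 * lam) * t * (3 / 4 / Real.sqrt x) := by gcongr
      _ < Real.exp (2 * lam) * t * (837 / 1000 * (117 / 100 / Real.sqrt x)) := by gcongr
      _ ≤ Real.exp (2 * lam) * t * (837 / 1000 * (1 / Real.sqrt 2 * S)) := by gcongr
      _ = _ := by ring
  have hpos : 0 < 2 * Real.pi * (a n : ℝ) := by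
    rw [← hreal]
    linarith
  have : (0 : ℝ) < (a n : ℝ) := by
    have h2pi : 0 < 2 * Real.pi := by linarith
    exact (mul_pos_iff_of_pos_left h2pi).mp hpos
  exact_mod_cast this

theorem goal (hAN : S_AN) (hCO : S_CO) (hFIN : S_FIN) (hFAC : S_FAC) (hR : S_R0L)
    (hR0S : S_R0S) (hMOD : S_MOD) (hEP : S_EP) (hDN : S_DN) (hDF : S_DF) (hTT : S_TT)
    (hTM : S_TM) (hTN : S_TN) (hINT : S_INT) : S_GOAL := by
  intro n hn
  have h : 0 < a n := by
    rcases le_or_gt n 12500 with h | h
    · exact hFIN n hn h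
    · exact large hAN hCO hFAC hR hR0S hMOD hEP hDN hDF hTT hTM hTN hINT n h
  unfold a at h
  omega

end K1H72.OP
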