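import Pool.Agent.K1H72.OP.Minor

/-! Major arc. -/

namespace K1H72.OP

open Real

lemma tau_re (t θ : ℝ) : (tau t θ).re = t := by simp [tau]

lemma tau_im (t θ : ℝ) : (tau t θ).im = -θ := by simp [tau]

lemma tau_ne {t : ℝ} (ht : 0 < t) (θ : ℝ) : tau t θ ≠ 0 := by
  intro h
  have := congrArg Complex.re h
  rw [tau_re] at this
  simp at this
  linarith

lemma exp7 : (1000 : ℝ) ≤ Real.exp 7 := by
  have h1 := Real.exp_one_gt_d9
  have : Real.exp 7 = Real.exp 1 ^ 7 := by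
    rw [← Real.exp_nat_mul]; norm_num
  rw [this]
  calc (1000 : ℝ) ≤ 2.7182818283 ^ 7 := by norm_num
    _ ≤ Real.exp 1 ^ 7 := by gcongr

lemma major (hFAC : S_FAC) (hR0S : S_R0S) (hMOD : S_MOD) (hEP : S_EP) (hTM : S_TM) {t θ : ℝ}
    (ht : 0 < t) (ht' : t ≤ 1 / 100) (hθ : |θ| ≤ t) :
    ∃ δ : ℂ, ‖δ‖ ≤ 3 / 100 ∧
      F (qq t θ) = ((1 / Real.sqrt 2 : ℝ) : ℂ) * Complex.exp ((cc : ℂ) / tau t θ) * (1 + δ) := by
  obtain ⟨e1, he1, hTh⟩ := hTM t θ ht (by linarith) hθ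
  obtain ⟨e3, he3, hR⟩ := hR0S t θ ht hθ
  have hre : 0 < (tau t θ).re := by rw [tau_re]; exact ht
  have hD := hMOD (tau t θ) hre
  have hτ0 := tau_ne ht θ
  have hpi := Real.pi_pos
  have hθ2 : θ ^ 2 ≤ t ^ 2 := by
    rw [← sq_abs θ]; gcongr
  have hQ : ‖Complex.exp (-2 * (Real.pi : ℂ) ^ 2 / tau t θ)‖ ≤ 1 / 1000 := by
    rw [Complex.norm_exp]
    have e : (-2 * (Real.pi : ℂ) ^ 2 / tau t θ).re = -(2 * Real.pi ^ 2 * (t / (t ^ 2 + θ ^ 2))) := by
      have : (-2 * (Real.pi : ℂ) ^ 2 / tau t θ) = ((-2 * Real.pi ^ 2 : ℝ) : ℂ) * (tau t θ)⁻¹ := by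
        push_cast
        rw [div_eq_mul_inv]
      rw [this, Complex.re_ofReal_mul, Complex.inv_re, tau_re, Complex.normSq_apply, tau_re, tau_im]
      field_simp
    rw [e]
    have h1 : 1 / (2 * t) ≤ t / (t ^ 2 + θ ^ 2) := by
      rw [div_le_div_iff₀ (by positivity) (by positivity)]
      nlinarith
    have h2 : (50 : ℝ) ≤ 1 / (2 * t) := by
      rw [le_div_iff₀ (by positivity)]
      linarith
    have h3 : (7 : ℝ) ≤ 2 * Real.pi ^ 2 * (t / (t ^ 2 + θ ^ 2)) := by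
      have : (9 : ℝ) ≤ Real.pi ^ 2 := by nlinarith [Real.pi_gt_three]
      nlinarith
    calc Real.exp (-(2 * Real.pi ^ 2 * (t / (t ^ 2 + θ ^ 2)))) ≤ Real.exp (-7) := by
          apply Real.exp_le_exp.mpr; linarith
      _ = (Real.exp 7)⁻¹ := Real.exp_neg 7
      _ ≤ 1000⁻¹ := by
          apply inv_anti₀ (by norm_num) exp7
      _ = 1 / 1000 := by norm_num
  have h2 := hEP _ hQ
  set Q := Complex.exp (-2 * (Real.pi : ℂ) ^ 2 / tau t θ) with hQdef
  obtain ⟨e2, he2⟩ : ∃ e2 : ℂ, ∏' j : ℕ, (1 - Q ^ (j + 1)) = 1 + e2 :=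
    ⟨∏' j : ℕ, (1 - Q ^ (j + 1)) - 1, by ring⟩
  rw [he2] at h2 hD
  have he2n : ‖e2‖ ≤ 1 / 500 := by
    have : (1 : ℂ) + e2 - 1 = e2 := by ring
    rw [this] at h2
    linarith
  have h1e2 : (1 : ℂ) + e2 ≠ 0 := by
    intro h
    have : e2 = -1 := by linear_combination h
    rw [this] at he2n
    norm_num at he2n
  set τ := tau t θ with hτ
  set w := ((Real.pi : ℂ) / τ) ^ (1 / 2 : ℂ) with hw
  have hpτ : (Real.pi : ℂ) / τ ≠ 0 := by
    apply div_ne_zero _ hτ0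
    exact_mod_cast hpi.ne'
  have hw0 : w ≠ 0 := by
    rw [hw]
    simp [Complex.cpow_eq_zero_iff, hpτ]
  have hw2 : (2 * (Real.pi : ℂ) / τ) ^ (1 / 2 : ℂ) = ((Real.sqrt 2 : ℝ) : ℂ) * w := by
    have : (2 * (Real.pi : ℂ) / τ) = ((2 : ℝ) : ℂ) * ((Real.pi : ℂ) / τ) := by
      push_cast; ring
    rw [this, hw, Complex.cpow_def_of_ne_zero (mul_ne_zero (by norm_num) hpτ),
      Complex.cpow_def_of_ne_zero hpτ, Complex.log_ofReal_mul (by norm_num) hpτ, add_mul,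
      Complex.exp_add]
    congr 1
    rw [Real.sqrt_eq_rpow, Complex.ofReal_cpow (by norm_num),
      Complex.cpow_def_of_ne_zero (by norm_num), Complex.ofReal_log (by norm_num)]
    push_cast
    ring_nf
  have hFe := hFAC (qq t θ) (qq_ne t θ) (norm_qq_lt ht θ)
  have hqq : qq t θ = Complex.exp (-τ) := rfl
  have hs3 : ((Real.sqrt 3 : ℝ) : ℂ) ≠ 0 := by
    have : (0 : ℝ) < Real.sqrt 3 := by positivity
    exact_mod_cast this.ne'
  have hs2 : ((Real.sqrt 2 : ℝ) : ℂ) ≠ 0 := by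
    have : (0 : ℝ) < Real.sqrt 2 := by positivity
    exact_mod_cast this.ne'
  have hs22 : ((Real.sqrt 2 : ℝ) : ℂ) * ((Real.sqrt 2 : ℝ) : ℂ) = 2 := by
    have : Real.sqrt 2 * Real.sqrt 2 = 2 := Real.mul_self_sqrt (by norm_num)
    exact_mod_cast this
  refine ⟨Complex.exp (τ / 24 - e3) * (1 + e1) / (1 + e2) - 1, ?_, ?_⟩
  · have hx : ‖τ / 24 - e3‖ ≤ 231 / 10000 := by
      have hn : ‖τ‖ ≤ 1415 / 1000 * t := by
        rw [hτ, norm_tau]
        apply Real.sqrt_le_iff.mpr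
        constructor
        · positivity
        · nlinarith [sq_nonneg t]
      calc ‖τ / 24 - e3‖ ≤ ‖τ / 24‖ + ‖e3‖ := norm_sub_le _ _
        _ ≤ 1415 / 1000 * t / 24 + 9 / 4 * t := by
            rw [norm_div]
            have : ‖(24 : ℂ)‖ = 24 := by norm_num
            rw [this]
            gcongr
        _ ≤ 231 / 10000 := by linarith
    have hy := Complex.norm_exp_sub_one_sub_id_le (x := τ / 24 - e3) (by linarith)
    obtain ⟨z, hz⟩ : ∃ z : ℂ, Complex.exp (τ / 24 - e3) = 1 + z :=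
      ⟨Complex.exp (τ / 24 - e3) - 1, by ring⟩
    have hzn : ‖z‖ ≤ 2365 / 100000 := by
      have e : z = (Complex.exp (τ / 24 - e3) - 1 - (τ / 24 - e3)) + (τ / 24 - e3) := by
        rw [hz]; ring
      rw [e]
      refine (norm_add_le _ _).trans ?_
      have : ‖τ / 24 - e3‖ ^ 2 ≤ (231 / 10000) ^ 2 := by gcongr
      nlinarith
    rw [hz]
    have e : (1 + z) * (1 + e1) / (1 + e2) - 1 = (z + e1 + z * e1 - e2) / (1 + e2) := by
      field_simp
      ring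
    rw [e, norm_div]
    have hden : (499 : ℝ) / 500 ≤ ‖1 + e2‖ := by
      have := norm_sub_norm_le (1 : ℂ) (-e2)
      rw [norm_neg, norm_one, sub_neg_eq_add] at this
      linarith
    rw [div_le_iff₀ (by linarith)]
    have hnum : ‖z + e1 + z * e1 - e2‖ ≤ ‖z‖ + ‖e1‖ + ‖z‖ * ‖e1‖ + ‖e2‖ := by
      refine (norm_sub_le _ _).trans ?_
      gcongr
      refine (norm_add_le _ _).trans ?_
      rw [norm_mul]
      gcongr
      exact norm_add_le _ _
    have : ‖z‖ * ‖e1‖ ≤ 2365 / 100000 * (1 / 1000) := by gcongr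
    linarith
  · rw [hqq] at hFe ⊢
    rw [hqq] at hR hTh
    rw [hD, hR, hTh, hw2] at hFe
    have hK : w * Complex.exp (τ / 12 - (Real.pi : ℂ) ^ 2 / (12 * τ)) * (1 + e2) *
        (((2 / Real.sqrt 3 : ℝ) : ℂ) * Complex.exp ((ell : ℂ) / τ + e3)) ≠ 0 := by
      have : ((2 / Real.sqrt 3 : ℝ) : ℂ) ≠ 0 := by
        have : (0 : ℝ) < 2 / Real.sqrt 3 := by positivity
        exact_mod_cast this.ne'
      exact mul_ne_zero (mul_ne_zero (mul_ne_zero hw0 (Complex.exp_ne_zero _)) h1e2)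
        (mul_ne_zero this (Complex.exp_ne_zero _))
    apply mul_right_cancel₀ hK
    have hlhs : F (Complex.exp (-τ)) * (w * Complex.exp (τ / 12 - (Real.pi : ℂ) ^ 2 / (12 * τ)) *
        (1 + e2) * (((2 / Real.sqrt 3 : ℝ) : ℂ) * Complex.exp ((ell : ℂ) / τ + e3))) =
        ((Real.sqrt 2 : ℝ) : ℂ) * w * ((1 / Real.sqrt 3 : ℝ) : ℂ) *
          Complex.exp (τ / 8 + (Real.log 3 : ℂ) ^ 2 / (2 * τ)) * (1 + e1) := by
      rw [← hFe]; ring
    rw [hlhs]
    have hexp : Complex.exp (τ / 8 + (Real.log 3 : ℂ) ^ 2 / (2 * τ)) =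
        Complex.exp ((cc : ℂ) / τ) * Complex.exp (τ / 24 - e3) *
        Complex.exp (τ / 12 - (Real.pi : ℂ) ^ 2 / (12 * τ)) * Complex.exp ((ell : ℂ) / τ + e3) := by
      rw [← Complex.exp_add, ← Complex.exp_add, ← Complex.exp_add]
      congr 1
      rw [cc]
      push_cast
      field_simp
      ring
    rw [hexp]
    push_cast
    have h3 : ((Real.sqrt 2 : ℝ) : ℂ) = 2 * (1 / ((Real.sqrt 2 : ℝ) : ℂ)) := by
      field_simp
      rw [← hs22]; ring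
    field_simp
    linear_combination (Complex.exp ((τ - 24 * e3) / 24) * (1 + e1)) * hs22

end K1H72.OP
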