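import Pool.Agent.K1H72.OP.Stm

/-! Minor arcs. -/

namespace K1H72.OP

open Real

/-- `c = (log 3)²/2 + π²/12 - ell`. -/
noncomputable def cc : ℝ := (Real.log 3) ^ 2 / 2 + Real.pi ^ 2 / 12 - ell

noncomputable def xB : ℝ := (Real.log 3) ^ 2 / 2 + Real.pi ^ 2 / 24 + 286 / 10000

noncomputable def xC : ℝ := (Real.log 3) ^ 2 / 2 + 3736 / 10000

lemma norm_tau (t θ : ℝ) : ‖tau t θ‖ = Real.sqrt (t ^ 2 + θ ^ 2) := by
  rw [Complex.norm_def, Complex.normSq_apply]
  simp [tau]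
  ring_nf

lemma norm_qq (t θ : ℝ) : ‖qq t θ‖ = Real.exp (-t) := by
  rw [qq, Complex.norm_exp]
  simp [tau]

lemma norm_qq_lt {t : ℝ} (ht : 0 < t) (θ : ℝ) : ‖qq t θ‖ < 1 := by
  rw [norm_qq]
  rw [Real.exp_lt_one_iff]
  linarith

lemma qq_ne (t θ : ℝ) : qq t θ ≠ 0 := Complex.exp_ne_zero _

lemma neg_qq (t θ : ℝ) : -qq t θ = qq t (θ + Real.pi) := by
  rw [qq, qq, show -tau t (θ + Real.pi) = -tau t θ + Real.pi * Complex.I by
    simp [tau]; ring, Complex.exp_add, Complex.exp_pi_mul_I]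
  ring

lemma D_neg (q : ℂ) : D (-q) = D q := by
  unfold D
  congr 1
  ext j
  rw [pow_mul, pow_mul, neg_sq]

lemma exp_1735 : Real.exp (1735 / 10000) ≤ 11896 / 10000 := by
  have h := Real.exp_bound' (x := 1735 / 10000) (by norm_num) (by norm_num) (n := 5) (by norm_num)
  refine h.trans ?_
  simp [Finset.sum_range_succ, Nat.factorial]
  norm_num

lemma F_norm_eq (hFAC : S_FAC) {q : ℂ} (h0 : q ≠ 0) (h1 : ‖q‖ < 1) {A B C : ℝ}
    (hA : ‖Th q‖ ≤ A) (hB : 0 < B) (hB' : B ≤ ‖D q‖) (hC : 0 < C) (hC' : C ≤ ‖R0 q‖) :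
    ‖F q‖ ≤ A / (B * C) := by
  have h := congrArg norm (hFAC q h0 h1)
  rw [norm_mul, norm_mul] at h
  rw [le_div_iff₀ (by positivity)]
  calc ‖F q‖ * (B * C) ≤ ‖F q‖ * (‖D q‖ * ‖R0 q‖) := by gcongr
    _ = ‖Th q‖ := by rw [← h]; ring
    _ ≤ A := hA

/-- near arcs, trivial theta bound -/
lemma near_one (hFAC : S_FAC) (hR : S_R0L) (hT : S_TT) {t θ : ℝ} {q : ℂ}
    (ht : 0 < t) (ht' : t ≤ 1 / 90) {φ : ℝ} (hq : q = qq t φ)
    (hD : 99 / 100 * Real.sqrt (Real.pi / ‖tau t θ‖) *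
      Real.exp (-(Real.pi ^ 2 / 12 * (t / (t ^ 2 + θ ^ 2)))) ≤ ‖D q‖)
    (h1 : t ≤ |θ|) (h8 : |θ| ≤ 8 * t) :
    ‖F q‖ ≤ 211 / 100 * Real.exp (xB / t) := by
  subst hq
  have hθ1 : t ^ 2 ≤ θ ^ 2 := by
    rw [← sq_abs θ]; gcongr
  have hθ8 : θ ^ 2 ≤ 64 * t ^ 2 := by
    rw [← sq_abs θ]
    calc |θ| ^ 2 ≤ (8 * t) ^ 2 := by gcongr
      _ = 64 * t ^ 2 := by ring
  have hn : ‖tau t θ‖ ≤ 807 / 100 * t := by
    rw [norm_tau]
    apply Real.sqrt_le_iff.mpr
    constructor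
    · positivity
    · nlinarith [sq_nonneg t]
  have hn0 : 0 < ‖tau t θ‖ := by
    rw [norm_tau]; positivity
  have hpi := Real.pi_pos
  have hexp : Real.exp (-(Real.pi ^ 2 / 24 / t)) ≤
      Real.exp (-(Real.pi ^ 2 / 12 * (t / (t ^ 2 + θ ^ 2)))) := by
    apply Real.exp_le_exp.mpr
    apply neg_le_neg
    have : t / (t ^ 2 + θ ^ 2) ≤ 1 / (2 * t) := by
      rw [div_le_div_iff₀ (by positivity) (by positivity)]
      nlinarith
    calc Real.pi ^ 2 / 12 * (t / (t ^ 2 + θ ^ 2)) ≤ Real.pi ^ 2 / 12 * (1 / (2 * t)) := by gcongr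
      _ = Real.pi ^ 2 / 24 / t := by field_simp; ring
  have hs : Real.sqrt (Real.pi / (807 / 100 * t)) ≤ Real.sqrt (Real.pi / ‖tau t θ‖) := by
    apply Real.sqrt_le_sqrt
    gcongr
  have hD' : 99 / 100 * Real.sqrt (Real.pi / (807 / 100 * t)) *
      Real.exp (-(Real.pi ^ 2 / 24 / t)) ≤ ‖D (qq t φ)‖ := by
    refine le_trans ?_ hD
    gcongr
  have h := F_norm_eq hFAC (qq_ne t φ) (norm_qq_lt ht φ) (hT t φ ht ht')
    (by positivity) hD' (by positivity) (hR t φ ht)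
  refine h.trans ?_
  have e1 : Real.sqrt (2 * Real.pi / t) =
      Real.sqrt (807 / 50) * Real.sqrt (Real.pi / (807 / 100 * t)) := by
    rw [← Real.sqrt_mul (by norm_num)]
    congr 1
    field_simp
    try ring
  have e2 : Real.sqrt (807 / 50) ≤ 4018 / 1000 := by
    apply Real.sqrt_le_iff.mpr
    constructor <;> norm_num
  have e3 : Real.exp (xB / t) = Real.exp ((Real.log 3) ^ 2 / (2 * t)) *
      Real.exp (Real.pi ^ 2 / 24 / t) * Real.exp (286 / 10000 / t) := by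
    rw [← Real.exp_add, ← Real.exp_add]
    congr 1
    rw [xB]
    field_simp
  have e4 : Real.exp (-(1735 / 10000) - 286 / 10000 / t) =
      (Real.exp (1735 / 10000))⁻¹ * (Real.exp (286 / 10000 / t))⁻¹ := by
    rw [← Real.exp_neg, ← Real.exp_neg, ← Real.exp_add]
    congr 1
  have e5 : Real.exp (-(Real.pi ^ 2 / 24 / t)) = (Real.exp (Real.pi ^ 2 / 24 / t))⁻¹ :=
    Real.exp_neg _
  rw [e1, e3, e4, e5]
  set s := Real.sqrt (Real.pi / (807 / 100 * t)) with hs'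
  have hs0 : 0 < s := by rw [hs']; positivity
  set a1 := Real.exp ((Real.log 3) ^ 2 / (2 * t))
  set a2 := Real.exp (Real.pi ^ 2 / 24 / t)
  set a3 := Real.exp (286 / 10000 / t)
  have p1 : 0 < a1 := Real.exp_pos _
  have p2 : 0 < a2 := Real.exp_pos _
  have p3 : 0 < a3 := Real.exp_pos _
  have p4 : 0 < Real.exp (1735 / 10000) := Real.exp_pos _
  have : 58 / 100 * (Real.sqrt (807 / 50) * s) * a1 /
      (99 / 100 * s * a2⁻¹ * (4 / 3 * ((Real.exp (1735 / 10000))⁻¹ * a3⁻¹))) =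
      (58 / 100 * (100 / 99) * (3 / 4)) * (Real.sqrt (807 / 50) * Real.exp (1735 / 10000)) *
        (a1 * a2 * a3) := by
    field_simp
    try ring
  rw [this]
  apply mul_le_mul_of_nonneg_right _ (by positivity)
  calc (58 / 100 * (100 / 99) * (3 / 4)) * (Real.sqrt (807 / 50) * Real.exp (1735 / 10000))
      ≤ (58 / 100 * (100 / 99) * (3 / 4)) * (4018 / 1000 * (11896 / 10000)) := by
        gcongr
        exact exp_1735
    _ ≤ 211 / 100 := by norm_num

lemma log3_le : Real.log 3 ≤ 11 / 10 := by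
  rw [Real.log_le_iff_le_exp (by norm_num)]
  have h1 := Real.exp_one_gt_d9
  have h2 : (1 : ℝ) + 1 / 10 + (1 / 10) ^ 2 / 2 ≤ Real.exp (1 / 10) := by
    have := Real.quadratic_le_exp_of_nonneg (x := 1 / 10) (by norm_num)
    linarith
  have : Real.exp (11 / 10) = Real.exp 1 * Real.exp (1 / 10) := by
    rw [← Real.exp_add]; norm_num
  rw [this]
  nlinarith [Real.exp_pos 1]

lemma log3_pos : 0 < Real.log 3 := Real.log_pos (by norm_num)

/-- near `-1`, `|u| ≤ 1` -/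
lemma near_neg (hFAC : S_FAC) (hR : S_R0L) (hDN : S_DN) (hTN : S_TN) {t u : ℝ}
    (ht : 0 < t) (ht' : t ≤ 1 / 90) (hu : |u| ≤ 1) :
    ‖F (-qq t (t * u))‖ ≤ 211 / 100 * Real.exp (xB / t) := by
  have hu2 : u ^ 2 ≤ 1 := by
    rw [← sq_abs]; exact pow_le_one₀ (abs_nonneg _) hu
  have hpi := Real.pi_pos
  have hL := log3_le
  have hL0 := log3_pos
  have hn : ‖tau t (t * u)‖ ≤ 1415 / 1000 * t := by
    rw [norm_tau]
    apply Real.sqrt_le_iff.mpr
    constructor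
    · positivity
    · nlinarith [sq_nonneg t, sq_nonneg (t * u)]
  have hn0 : 0 < ‖tau t (t * u)‖ := by
    rw [norm_tau]; positivity
  have hD := hDN t (t * u) ht ht' (by
    rw [abs_mul, abs_of_pos ht]; nlinarith)
  rw [← D_neg] at hD
  have hs : Real.sqrt (Real.pi / (1415 / 1000 * t)) ≤ Real.sqrt (Real.pi / ‖tau t (t * u)‖) := by
    apply Real.sqrt_le_sqrt
    gcongr
  have hD' : 99 / 100 * Real.sqrt (Real.pi / (1415 / 1000 * t)) *
      Real.exp (-(Real.pi ^ 2 / 12 * (t / (t ^ 2 + (t * u) ^ 2)))) ≤ ‖D (-qq t (t * u))‖ := by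
    refine le_trans ?_ hD
    gcongr
  have hRR := hR t (t * u + Real.pi) ht
  rw [← neg_qq] at hRR
  have h := F_norm_eq hFAC (neg_ne_zero.mpr (qq_ne t (t * u)))
    (by rw [norm_neg]; exact norm_qq_lt ht _) (hTN t u ht ht' hu)
    (by positivity) hD' (by positivity) hRR
  refine h.trans ?_
  have e1 : Real.sqrt (2 * Real.pi / t) =
      Real.sqrt (283 / 100) * Real.sqrt (Real.pi / (1415 / 1000 * t)) := by
    rw [← Real.sqrt_mul (by norm_num)]
    congr 1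
    field_simp
    try ring
  have e2 : Real.sqrt (283 / 100) ≤ 1683 / 1000 := by
    apply Real.sqrt_le_iff.mpr
    constructor <;> norm_num
  have e4 : Real.exp (-(1735 / 10000) - 286 / 10000 / t) =
      (Real.exp (1735 / 10000))⁻¹ * (Real.exp (286 / 10000 / t))⁻¹ := by
    rw [← Real.exp_neg, ← Real.exp_neg, ← Real.exp_add]
    congr 1
  have e5 : Real.exp (-(Real.pi ^ 2 / 12 * (t / (t ^ 2 + (t * u) ^ 2)))) =
      (Real.exp (Real.pi ^ 2 / 12 * (t / (t ^ 2 + (t * u) ^ 2))))⁻¹ :=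
    Real.exp_neg _
  have hkey : ((Real.log 3) ^ 2 / 2 -
      (Real.pi / 2 - |u| * Real.log 3) ^ 2 / (2 * (1 + u ^ 2))) / t +
      Real.pi ^ 2 / 12 * (t / (t ^ 2 + (t * u) ^ 2)) + 286 / 10000 / t ≤ xB / t := by
    have e : Real.pi ^ 2 / 12 * (t / (t ^ 2 + (t * u) ^ 2)) =
        (Real.pi ^ 2 / (12 * (1 + u ^ 2))) / t := by
      field_simp
    rw [e, ← add_div, ← add_div]
    apply div_le_div_of_nonneg_right _ ht.le
    rw [xB]
    have : Real.pi ^ 2 / (12 * (1 + u ^ 2)) ≤ Real.pi ^ 2 / 24 +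
        (Real.pi / 2 - |u| * Real.log 3) ^ 2 / (2 * (1 + u ^ 2)) := by
      rw [div_add_div _ _ (by norm_num) (by positivity), div_le_div_iff₀ (by positivity)
        (by positivity)]
      have hq : 0 ≤ Real.pi ^ 2 / 6 - Real.pi * Real.log 3 * |u| +
          ((Real.log 3) ^ 2 + Real.pi ^ 2 / 12) * u ^ 2 := by
        rw [← sq_abs u]
        have hpi3 := Real.pi_gt_d4
        have hu0 := abs_nonneg u
        set x := |u| with hx
        have hs1 : Real.pi * (1 / 2 - 3503 / 10000 * x) ≤ Real.pi / 2 - Real.log 3 * x := by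
          have : Real.log 3 * x ≤ Real.pi * (3503 / 10000) * x := by
            gcongr
            linarith
          linarith
        have hs0 : 0 ≤ Real.pi * (1 / 2 - 3503 / 10000 * x) := by
          apply mul_nonneg hpi.le
          linarith
        have hs2 := pow_le_pow_left₀ hs0 hs1 2
        have hs3 : 0 ≤ Real.pi ^ 2 * ((1 / 2 - 3503 / 10000 * x) ^ 2 - (1 - x ^ 2) / 12) := by
          apply mul_nonneg (sq_nonneg _)
          nlinarith [sq_nonneg (x - 85 / 100)]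
        nlinarith [hs2, hs3]
      rw [← sq_abs u] at hq ⊢
      nlinarith [hq, sq_nonneg (|u|)]
    linarith
  have hexp := Real.exp_le_exp.mpr hkey
  rw [Real.exp_add, Real.exp_add] at hexp
  rw [e1, e4, e5]
  set s := Real.sqrt (Real.pi / (1415 / 1000 * t)) with hs'
  have hs0 : 0 < s := by rw [hs']; positivity
  set a1 := Real.exp (((Real.log 3) ^ 2 / 2 -
      (Real.pi / 2 - |u| * Real.log 3) ^ 2 / (2 * (1 + u ^ 2))) / t)
  set a2 := Real.exp (Real.pi ^ 2 / 12 * (t / (t ^ 2 + (t * u) ^ 2)))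
  set a3 := Real.exp (286 / 10000 / t)
  have p1 : 0 < a1 := Real.exp_pos _
  have p2 : 0 < a2 := Real.exp_pos _
  have p3 : 0 < a3 := Real.exp_pos _
  have p4 : 0 < Real.exp (1735 / 10000) := Real.exp_pos _
  have : 83 / 100 * (Real.sqrt (283 / 100) * s) * a1 /
      (99 / 100 * s * a2⁻¹ * (4 / 3 * ((Real.exp (1735 / 10000))⁻¹ * a3⁻¹))) =
      (83 / 100 * (100 / 99) * (3 / 4)) * (Real.sqrt (283 / 100) * Real.exp (1735 / 10000)) *
        (a1 * a2 * a3) := by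
    field_simp
    try ring
  rw [this]
  calc (83 / 100 * (100 / 99) * (3 / 4)) * (Real.sqrt (283 / 100) * Real.exp (1735 / 10000)) *
        (a1 * a2 * a3)
      ≤ (83 / 100 * (100 / 99) * (3 / 4)) * (1683 / 1000 * (11896 / 10000)) *
        Real.exp (xB / t) := by
        gcongr
        exact exp_1735
    _ ≤ 211 / 100 * Real.exp (xB / t) := by
        apply mul_le_mul_of_nonneg_right _ (Real.exp_pos _).le
        norm_num

/-- near arcs around 1 -/
lemma minor_near (hFAC : S_FAC) (hR : S_R0L) (hDN : S_DN) (hT : S_TT) {t θ : ℝ}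
    (ht : 0 < t) (ht' : t ≤ 1 / 90) (h1 : t ≤ |θ|) (h8 : |θ| ≤ 8 * t) :
    ‖F (qq t θ)‖ ≤ 211 / 100 * Real.exp (xB / t) :=
  near_one hFAC hR hT ht ht' rfl (hDN t θ ht ht' h8) h1 h8

/-- near arcs around -1 -/
lemma minor_neg (hFAC : S_FAC) (hR : S_R0L) (hDN : S_DN) (hT : S_TT) (hTN : S_TN) {t θ : ℝ}
    (ht : 0 < t) (ht' : t ≤ 1 / 90) (h8 : |θ| ≤ 8 * t) :
    ‖F (-qq t θ)‖ ≤ 211 / 100 * Real.exp (xB / t) := by
  rcases le_or_gt t |θ| with h1 | h1
  · have hD := hDN t θ ht ht' h8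
    rw [← D_neg] at hD
    exact near_one hFAC hR hT ht ht' (neg_qq t θ) hD h1 h8
  · have e : θ = t * (θ / t) := by field_simp
    rw [e]
    apply near_neg hFAC hR hDN hTN ht ht'
    rw [abs_div, abs_of_pos ht, div_le_one ht]
    exact h1.le

lemma minor_far (hFAC : S_FAC) (hR : S_R0L) (hDF : S_DF) (hT : S_TT) {t θ : ℝ}
    (ht : 0 < t) (ht' : t ≤ 1 / 100) (h8 : 8 * t ≤ |θ|) (hpi : |θ| ≤ Real.pi - 8 * t) :
    ‖F (qq t θ)‖ ≤ 518 / 1000 * Real.sqrt (2 * Real.pi / t) * Real.exp (xC / t) := by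
  have h := F_norm_eq hFAC (qq_ne t θ) (norm_qq_lt ht θ) (hT t θ ht (by linarith))
    (by positivity) (hDF t θ ht ht' h8 hpi) (by positivity) (hR t θ ht)
  refine h.trans ?_
  have e3 : Real.exp (xC / t) = Real.exp ((Real.log 3) ^ 2 / (2 * t)) *
      Real.exp (345 / 1000 / t) * Real.exp (286 / 10000 / t) := by
    rw [← Real.exp_add, ← Real.exp_add]
    congr 1
    rw [xC]
    field_simp
    ring
  have e4 : Real.exp (-(1735 / 10000) - 286 / 10000 / t) =
      (Real.exp (1735 / 10000))⁻¹ * (Real.exp (286 / 10000 / t))⁻¹ := by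
    rw [← Real.exp_neg, ← Real.exp_neg, ← Real.exp_add]
    congr 1
  have e5 : Real.exp (-(345 / 1000 / t)) = (Real.exp (345 / 1000 / t))⁻¹ := Real.exp_neg _
  rw [e3, e4, e5]
  have p1 : 0 < Real.exp ((Real.log 3) ^ 2 / (2 * t)) := Real.exp_pos _
  set a1 := Real.exp ((Real.log 3) ^ 2 / (2 * t))
  set a2 := Real.exp (345 / 1000 / t)
  set a3 := Real.exp (286 / 10000 / t)
  have p2 : 0 < a2 := Real.exp_pos _
  have p3 : 0 < a3 := Real.exp_pos _
  have p4 : 0 < Real.exp (1735 / 10000) := Real.exp_pos _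
  have : 58 / 100 * Real.sqrt (2 * Real.pi / t) * a1 /
      (a2⁻¹ * (4 / 3 * ((Real.exp (1735 / 10000))⁻¹ * a3⁻¹))) =
      (58 / 100 * (3 / 4)) * Real.exp (1735 / 10000) * Real.sqrt (2 * Real.pi / t) *
        (a1 * a2 * a3) := by
    field_simp
  rw [this]
  have : (58 / 100 * (3 / 4)) * Real.exp (1735 / 10000) ≤ 518 / 1000 := by
    have := exp_1735
    nlinarith
  exact mul_le_mul_of_nonneg_right (mul_le_mul_of_nonneg_right this (Real.sqrt_nonneg _))
    (by positivity)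

end K1H72.OP
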