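import Pool.Agent.K1H72.OP.Major

/-! Numerical estimates. -/

namespace K1H72.OP

open Real

lemma ell_bounds : 3 / 10 ≤ ell ∧ ell ≤ 3091 / 10000 := by
  set f : ℕ → ℝ := fun m => (-1) ^ m * (1 / 3 : ℝ) ^ (m + 1) / ((m : ℝ) + 1) ^ 2 with hf
  have hb : ∀ m, ‖f m‖ ≤ (1 / 3 : ℝ) ^ (m + 1) := by
    intro m
    rw [hf]
    simp only
    rw [norm_div, norm_mul, norm_pow, norm_neg, norm_one, one_pow, one_mul]
    rw [Real.norm_of_nonneg (by positivity), Real.norm_of_nonneg (by positivity)]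
    apply div_le_self (by positivity)
    have : (1 : ℝ) ≤ (m : ℝ) + 1 := by
      have : (0 : ℝ) ≤ m := Nat.cast_nonneg m
      linarith
    exact one_le_pow₀ this
  have hg : HasSum (fun m : ℕ => (1 / 3 : ℝ) ^ m) (3 / 2) := by
    have := hasSum_geometric_of_lt_one (r := (1 / 3 : ℝ)) (by norm_num) (by norm_num)
    norm_num at this ⊢
    exact this
  have hgs : Summable fun m : ℕ => (1 / 3 : ℝ) ^ (m + 1) :=
    (summable_nat_add_iff 1).mpr hg.summable
  have hs : Summable f := Summable.of_norm_bounded hgs hb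
  have h6 := hs.sum_add_tsum_nat_add 6
  have htail : ‖∑' m, f (m + 6)‖ ≤ (1 / 3 : ℝ) ^ 7 / 49 * (3 / 2) := by
    apply tsum_of_norm_bounded (hg.mul_left ((1 / 3 : ℝ) ^ 7 / 49))
    intro m
    rw [hf]
    simp only
    rw [norm_div, norm_mul, norm_pow, norm_neg, norm_one, one_pow, one_mul]
    rw [Real.norm_of_nonneg (by positivity), Real.norm_of_nonneg (by positivity)]
    have : (49 : ℝ) ≤ (((m + 6 : ℕ) : ℝ) + 1) ^ 2 := by
      push_cast
      have : (0 : ℝ) ≤ m := Nat.cast_nonneg m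
      nlinarith
    calc (1 / 3 : ℝ) ^ (m + 6 + 1) / (((m + 6 : ℕ) : ℝ) + 1) ^ 2
        ≤ (1 / 3 : ℝ) ^ (m + 6 + 1) / 49 := by gcongr
      _ = (1 / 3 : ℝ) ^ 7 / 49 * (1 / 3 : ℝ) ^ m := by
          rw [show m + 6 + 1 = 7 + m by ring, pow_add]; ring
  have habs := abs_le.mp htail
  have hell : ell = ∑' m, f m := rfl
  rw [hell, ← h6]
  have h6s : ∑ i ∈ Finset.range 6, f i = 1/3 - 1/36 + 1/243 - 1/1296 + 1/6075 - 1/26244 := by
    simp only [hf, Finset.sum_range_succ, Finset.sum_range_zero]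
    norm_num
  rw [h6s]
  constructor
  · have := habs.1
    norm_num at this ⊢
    linarith
  · have := habs.2
    norm_num at this ⊢
    linarith

lemma log3_ge : 109 / 100 ≤ Real.log 3 := by
  rw [Real.le_log_iff_exp_le (by norm_num)]
  have h1 := Real.exp_one_lt_d9
  have h2 := Real.exp_bound' (x := 9 / 100) (by norm_num) (by norm_num) (n := 3) (by norm_num)
  have h3 : Real.exp (9 / 100) ≤ 1095 / 1000 := by
    refine h2.trans ?_
    simp [Finset.sum_range_succ, Nat.factorial]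
    norm_num
  have : Real.exp (109 / 100) = Real.exp 1 * Real.exp (9 / 100) := by
    rw [← Real.exp_add]; norm_num
  rw [this]
  nlinarith [Real.exp_pos 1, Real.exp_pos (9 / 100)]

lemma cc_bounds : 11 / 10 ≤ cc ∧ cc ≤ 113 / 100 := by
  have h1 := ell_bounds
  have h2 := log3_le
  have h3 := log3_ge
  have h4 := Real.pi_gt_d4
  have h5 := Real.pi_lt_d4
  rw [cc]
  constructor
  · nlinarith
  · nlinarith

lemma cc_xB : 735 / 10000 ≤ cc - xB := by
  have h1 := ell_bounds
  have h4 := Real.pi_gt_d4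
  rw [cc, xB]
  nlinarith

lemma cc_xC : 139 / 1000 ≤ cc - xC := by
  have h1 := ell_bounds
  have h4 := Real.pi_gt_d4
  rw [cc, xC]
  nlinarith

lemma num_final {x : ℝ} (hx : 105 ≤ x) :
    64 * Real.sqrt x * Real.exp (-(735 / 10000 * x)) +
      82 / 10 * x ^ 2 * Real.exp (-(139 / 1000 * x)) ≤ 3 / 4 := by
  set y := (x - 105) / 105 with hy
  have hxy : x = 105 * (1 + y) := by rw [hy]; ring
  have hy0 : 0 ≤ y := by rw [hy]; apply div_nonneg <;> linarith
  have hey : 1 + y ≤ Real.exp y := by linarith [Real.add_one_le_exp y]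
  have h1 : Real.sqrt x ≤ 1025 / 100 * Real.exp (y / 2) := by
    apply Real.sqrt_le_iff.mpr
    constructor
    · positivity
    · have : (1025 / 100 * Real.exp (y / 2)) ^ 2 = (1025 / 100) ^ 2 * Real.exp y := by
        rw [mul_pow, ← Real.exp_nat_mul]; congr 2; push_cast; ring
      rw [this]
      nlinarith [Real.exp_pos y]
  have h2 : x ^ 2 ≤ 11025 * Real.exp (2 * y) := by
    have : Real.exp (2 * y) = Real.exp y ^ 2 := by
      rw [← Real.exp_nat_mul]; norm_num
    rw [this, hxy]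
    nlinarith
  have h7 : Real.exp (-7) ≤ 1 / 1000 := by
    rw [Real.exp_neg, one_div]
    exact inv_anti₀ (by norm_num) exp7
  have h14 : Real.exp (-14) ≤ 1 / 1000000 := by
    have : Real.exp (-14) = Real.exp (-7) ^ 2 := by
      rw [← Real.exp_nat_mul]; norm_num
    rw [this]
    calc Real.exp (-7) ^ 2 ≤ (1 / 1000) ^ 2 := by gcongr
      _ = 1 / 1000000 := by norm_num
  have h3 : Real.sqrt x * Real.exp (-(735 / 10000 * x)) ≤ 1025 / 100 * (1 / 1000) := by
    calc Real.sqrt x * Real.exp (-(735 / 10000 * x))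
        ≤ (1025 / 100 * Real.exp (y / 2)) * Real.exp (-(735 / 10000 * x)) := by gcongr
      _ = 1025 / 100 * Real.exp (y / 2 - 735 / 10000 * x) := by
          rw [mul_assoc, ← Real.exp_add]; congr 2
      _ ≤ 1025 / 100 * Real.exp (-7) := by
          gcongr
          rw [hxy]; linarith
      _ ≤ 1025 / 100 * (1 / 1000) := by gcongr
  have h4 : x ^ 2 * Real.exp (-(139 / 1000 * x)) ≤ 11025 * (1 / 1000000) := by
    calc x ^ 2 * Real.exp (-(139 / 1000 * x))
        ≤ (11025 * Real.exp (2 * y)) * Real.exp (-(139 / 1000 * x)) := by gcongr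
      _ = 11025 * Real.exp (2 * y - 139 / 1000 * x) := by
          rw [mul_assoc, ← Real.exp_add]; congr 2
      _ ≤ 11025 * Real.exp (-14) := by
          gcongr
          rw [hxy]; linarith
      _ ≤ 11025 * (1 / 1000000) := by gcongr
  calc 64 * Real.sqrt x * Real.exp (-(735 / 10000 * x)) +
      82 / 10 * x ^ 2 * Real.exp (-(139 / 1000 * x))
      = 64 * (Real.sqrt x * Real.exp (-(735 / 10000 * x))) +
        82 / 10 * (x ^ 2 * Real.exp (-(139 / 1000 * x))) := by ring
    _ ≤ 64 * (1025 / 100 * (1 / 1000)) + 82 / 10 * (11025 * (1 / 1000000)) := by gcongr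
    _ ≤ 3 / 4 := by norm_num

end K1H72.OP
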